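import Pool.Agent.H24.WT.Red
import Pool.Agent.H83.TR.ClsU
import Pool.Agent.H3.GW.TargetsH

/-!
# The transfer on logarithmic windows (MP_c59857_nt): the class
-/

set_option autoImplicit false

namespace Pool.Agent.H24.WT

open Finset Pool.Agent.H6.N4D Pool.Agent.H93.EB Pool.Agent.H83.TR

/-- the class satisfies the hypothesis of the transfer -/
theorem trW_cl (k : ℕ) (T : ℝ) (ρ : ℕ → ℝ) (hk : 1 ≤ k) (hT : 0 ≤ T)
    (hρ : Summable (fun p : Nat.Primes => ρ p / ((p : ℕ) : ℝ))) : TrW (ClU k T ρ) Lio1 := by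
  classical
  intro ε hε
  -- the parameters
  obtain ⟨w₁, hw₁⟩ := tail_small (a := fun q : ℕ => mj ρ q / q)
    (fun q => div_nonneg (mj_nonneg ρ q) (Nat.cast_nonneg _)) (mj_summable hρ)
    (δ := ε / 8) (by positivity)
  have hsq : Summable (fun q : ℕ => 1 / (q : ℝ) ^ 2) :=
    Real.summable_one_div_nat_pow.2 (by norm_num)
  obtain ⟨w₂, hw₂⟩ := tail_small (a := fun q : ℕ => 1 / (q : ℝ) ^ 2) (fun q => by positivity) hsq
    (δ := ε / 8) (by positivity)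
  set w := max k (max w₁ w₂) with hw
  obtain ⟨D₀, hD₀⟩ := tail_small (a := fun D : ℕ => if D ≠ 0 ∧ Sm w D then (1 : ℝ) / D else 0)
    (fun D => by split_ifs <;> positivity) (smooth_summable w)
    (δ := ε / 8) (by positivity)
  refine ⟨D₀, k * w.factorial, ε, T, Nat.mul_pos hk (Nat.factorial_pos _), hT, ?_⟩
  rintro f ⟨χ, t, ht, hb, hm, hp⟩
  have h := cl_of hρ hb hm hp
  refine ⟨ut t, cc χ t w, norm_ut t, fun n h' hn => (ut_slow t n h' hn).trans ?_,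
    norm_cc χ t w, per_cc χ t w, fun Y X hY hYX => ?_⟩
  · apply div_le_div_of_nonneg_right _ (Nat.cast_nonneg _)
    exact mul_le_mul_of_nonneg_right ht (Nat.cast_nonneg _)
  have hlY : 0 ≤ LL Y X := LL_nonneg hY hYX
  have h1 : ∀ n ∈ Icc Y X, ‖ut t n * Lio1 n - dl D₀ (cc χ t w) f n‖ ^ 2 / (n : ℝ) ≤
      ∑ D ∈ Ioc D₀ X, (if D ≠ 0 ∧ Sm w D then (1 : ℝ) else 0) * (if D ∣ n then 1 / (n : ℝ) else 0) +
      2 * ∑ q ∈ Ioc w X, (mj ρ q * (if q ∣ n then 1 / (n : ℝ) else 0) +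
        2 * (if q ^ 2 ∣ n then 1 / (n : ℝ) else 0)) := by
    intro n hn
    rw [mem_Icc] at hn
    have hn0 : (0 : ℝ) < n := by exact_mod_cast (by omega : 0 < n)
    have h2 := pt_le h w D₀ X n hk (le_max_left _ _) (by omega) hn.2
    have h3 := div_le_div_of_nonneg_right h2 hn0.le
    refine h3.trans ?_
    rw [add_div, mul_div_assoc, sum_div, sum_div]
    apply add_le_add
    · refine le_of_eq (sum_congr rfl fun D _ => ?_)
      by_cases hd : D ∣ n
      · rw [if_pos hd, if_pos hd]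
        ring
      · rw [if_neg hd, if_neg hd]
        ring
    · apply mul_le_mul_of_nonneg_left _ (by norm_num)
      refine sum_le_sum fun q _ => ?_
      rw [add_div]
      apply add_le_add
      · by_cases hd : q ∣ n
        · rw [if_pos hd, if_pos hd, ← mul_one_div]
          exact mul_le_mul_of_nonneg_right (ap_le hp q) (by positivity)
        · rw [if_neg hd, if_neg hd, zero_div, mul_zero]
      · by_cases hd : q ^ 2 ∣ n
        · rw [if_pos hd, if_pos hd]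
          apply le_of_eq
          ring
        · rw [if_neg hd, if_neg hd]
          apply le_of_eq
          ring
  refine (sum_le_sum h1).trans ?_
  rw [sum_add_distrib, ← mul_sum, sum_comm, sum_comm (s := Icc Y X) (t := Ioc w X)]
  set M : ℝ := 1 + LL Y X with hM
  have hM0 : 0 ≤ M := by linarith
  have h2 : ∑ D ∈ Ioc D₀ X, ∑ n ∈ Icc Y X,
      (if D ≠ 0 ∧ Sm w D then (1 : ℝ) else 0) * (if D ∣ n then 1 / (n : ℝ) else 0) ≤
      ε / 8 * M := by
    have h3 : ∀ D ∈ Ioc D₀ X, ∑ n ∈ Icc Y X,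
        (if D ≠ 0 ∧ Sm w D then (1 : ℝ) else 0) * (if D ∣ n then 1 / (n : ℝ) else 0) ≤
        (if D ≠ 0 ∧ Sm w D then (1 : ℝ) / D else 0) * M := by
      intro D hD
      rw [mem_Ioc] at hD
      rw [← mul_sum]
      by_cases hc : D ≠ 0 ∧ Sm w D
      · rw [if_pos hc, if_pos hc, one_mul]
        exact sum_dvdW Y X D (by omega) hY hYX
      · rw [if_neg hc, if_neg hc, zero_mul, zero_mul]
    refine (sum_le_sum h3).trans ?_
    rw [← sum_mul]
    exact mul_le_mul_of_nonneg_right (hD₀ D₀ le_rfl X) hM0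
  have h4 : ∑ q ∈ Ioc w X, ∑ n ∈ Icc Y X, (mj ρ q * (if q ∣ n then 1 / (n : ℝ) else 0) +
        2 * (if q ^ 2 ∣ n then 1 / (n : ℝ) else 0)) ≤ ε / 8 * M + 2 * (ε / 8 * M) := by
    have h5 : ∀ q ∈ Ioc w X, ∑ n ∈ Icc Y X, (mj ρ q * (if q ∣ n then 1 / (n : ℝ) else 0) +
        2 * (if q ^ 2 ∣ n then 1 / (n : ℝ) else 0)) ≤
        mj ρ q / q * M + 2 * (1 / (q : ℝ) ^ 2 * M) := by
      intro q hq
      rw [mem_Ioc] at hq
      rw [sum_add_distrib, ← mul_sum, ← mul_sum]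
      apply add_le_add
      · have h6 := mul_le_mul_of_nonneg_left (sum_dvdW Y X q (by omega) hY hYX) (mj_nonneg ρ q)
        refine h6.trans (le_of_eq ?_)
        ring
      · apply mul_le_mul_of_nonneg_left _ (by norm_num)
        have h6 := sum_dvdW Y X (q ^ 2) (Nat.pow_pos (by omega)) hY hYX
        push_cast at h6
        exact h6
    refine (sum_le_sum h5).trans ?_
    rw [sum_add_distrib, ← sum_mul, ← mul_sum, ← sum_mul]
    apply add_le_add
    · exact mul_le_mul_of_nonneg_right (hw₁ w ((le_max_left _ _).trans (le_max_right _ _)) X) hM0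
    · apply mul_le_mul_of_nonneg_left _ (by norm_num)
      exact mul_le_mul_of_nonneg_right (hw₂ w ((le_max_right _ _).trans (le_max_right _ _)) X) hM0
  have h5 : 0 ≤ ε * M := by positivity
  have h6 : ε * M = ε * LL Y X + ε := by rw [hM]; ring
  linarith

theorem redW_cl (k : ℕ) (T : ℝ) (ρ : ℕ → ℝ) (hk : 1 ≤ k) (hT : 0 ≤ T)
    (hρ : Summable (fun p : Nat.Primes => ρ p / ((p : ℕ) : ℝ))) : RedW (ClU k T ρ) Lio1 :=
  redW_of (fun n => (norm_Lio1 n).le) (fun _ ⟨_, _, _, hb, _, _⟩ => hb) (trW_cl k T ρ hk hT hρ)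

lemma appW_of_plain {f : ℕ → ℂ} {R H Y X : ℕ} {e : ℝ} {b : ℕ → ℕ → ℂ} {β : ℕ → ℕ → ℝ}
    (hb : ∀ n r, ‖b n r‖ ≤ 1)
    (hcon : ∑ n ∈ Icc Y X, 1 / (n : ℝ) * ((∑ h ∈ Icc 1 H, ‖f (n + h) - ∑ r ∈ range R,
      b n r * Complex.exp (2 * Real.pi * Complex.I * (β n r * h))‖ ^ 2) / H) ≤ e * LL Y X) :
    AppW f R H Y X e := by
  refine ⟨fun n r => b n r * ee (-(β n r * n)), β, fun n r => ?_, le_trans (le_of_eq ?_) hcon⟩
  · rw [norm_mul, norm_eeT, mul_one]
    exact hb n r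
  · unfold wl
    refine sum_congr rfl fun n _ => ?_
    have hI : Ioc n (n + H) = (Icc 1 H).image (fun h => n + h) := by
      ext m
      rw [mem_Ioc, mem_image]
      constructor
      · intro hm
        exact ⟨m - n, by rw [mem_Icc]; omega, by omega⟩
      · rintro ⟨h, hh, rfl⟩
        rw [mem_Icc] at hh
        omega
    dsimp only
    rw [hI, sum_image (fun a _ b _ hab => by simpa using hab), one_div, inv_mul_eq_div]
    congr 2
    refine sum_congr rfl fun h _ => ?_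
    congr 3
    refine sum_congr rfl fun r _ => ?_
    have h1 : Complex.exp (2 * Real.pi * Complex.I * (β n r * h)) = ee (β n r * h) := by
      rw [ee_eq]
      congr 1
      push_cast
      ring
    rw [h1, mul_assoc, ← ee_addT]
    congr 2
    push_cast
    ring

lemma LL_eq {Y X : ℕ} (hY : 1 ≤ Y) (hX : Y ≤ X) : Real.log ((X : ℝ) / Y) = LL Y X := by
  have hY0 : (0 : ℝ) < Y := by exact_mod_cast hY
  have hX0 : (0 : ℝ) < X := by exact_mod_cast (by omega : 0 < X)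
  unfold LL
  exact Real.log_div hX0.ne' hY0.ne'

/-- the window -/
def wn (Y X : ℕ) (hY : 1 ≤ Y) (hX : Y ≤ X)
    (hb : Real.log X ^ (24 / 25 : ℝ) ≤ Real.log ((X : ℝ) / Y)) : Pool.Agent.H28.NW.Wn where
  lo := Y
  hi := X
  one_le := hY
  le := hX
  big := by rw [LL_eq hY hX] at hb; exact hb

/-- **Theorem (H0) for the whole class on logarithmic windows.** The constants `c` and `K` depend
on `k`, `T`, `ρ` only. -/
theorem gh0W (hH : Pool.Agent.H3.GW.W_GH0) (k : ℕ) [NeZero k] (T : ℝ) (ρ : ℕ → ℝ)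
    (hρ : Summable (fun p : Nat.Primes => ρ p / ((p : ℕ) : ℝ))) :
    ∃ (c : ℝ) (K : ℕ), 0 < c ∧ ∀ R : ℕ, ∃ H₀ : ℕ, ∀ H Y X : ℕ, H₀ ≤ H → 1 ≤ Y → Y ≤ X →
      K * Real.log H ≤ Real.log ((X : ℝ) / Y) →
      Real.log X ^ (24 / 25 : ℝ) ≤ Real.log ((X : ℝ) / Y) →
      ∀ (χ : DirichletCharacter ℂ k) (t : ℝ) (f : ℕ → ℂ), |t| ≤ T → (∀ n, ‖f n‖ ≤ 1) →
      (∀ n : ℕ, Squarefree n → f n = ∏ p ∈ n.primeFactors, f p) →
      (∀ p : ℕ, p.Prime → ‖f p + χ (p : ZMod k) * (p : ℂ) ^ ((t : ℂ) * Complex.I)‖ ≤ ρ p) →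
      ∀ (b : ℕ → ℕ → ℂ) (β : ℕ → ℕ → ℝ), (∀ n r, ‖b n r‖ ≤ 1) →
        c * Real.log ((X : ℝ) / Y) < ∑ n ∈ Icc Y X, 1 / (n : ℝ) * ((∑ h ∈ Icc 1 H,
          ‖f (n + h) - ∑ r ∈ range R,
            b n r * Complex.exp (2 * Real.pi * Complex.I * (β n r * h))‖ ^ 2) / H) := by
  obtain ⟨c₀, K₀, hc₀, hK₀, hH⟩ := hH
  obtain ⟨e', he', D, C, hred⟩ := redW_cl k |T| ρ NeZero.one_le (abs_nonneg T) hρ c₀ hc₀
  refine ⟨e', K₀ + ⌈C⌉₊, he', fun R => ?_⟩
  obtain ⟨H₁, hH₁⟩ := hH (D * R)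
  refine ⟨H₁ + 3, fun H Y X hH hY hYX hK hbig χ t f ht hb hm hp b β hbb => ?_⟩
  by_contra hcon
  push Not at hcon
  have hL := LL_eq hY hYX
  have hH3 : 3 ≤ H := by omega
  have hlH1 : 1 ≤ Real.log H := by
    rw [Real.le_log_iff_exp_le (by exact_mod_cast (by omega : 0 < H))]
    have h1 := Real.exp_one_lt_d9
    have h2 : (3 : ℝ) ≤ H := by exact_mod_cast hH3
    linarith
  have hlog : ((K₀ + ⌈C⌉₊ : ℕ) : ℝ) * Real.log H ≤ LL Y X := by rw [← hL]; exact hK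
  have hC1 : C * Real.log H ≤ LL Y X := by
    refine le_trans (mul_le_mul_of_nonneg_right ?_ (by linarith)) hlog
    push_cast
    have h1 := Nat.le_ceil C
    have h2 : (0 : ℝ) ≤ K₀ := Nat.cast_nonneg _
    linarith
  have hC2 : C ≤ LL Y X := by
    have h3 : (((K₀ + ⌈C⌉₊ : ℕ) : ℝ)) ≤ ((K₀ + ⌈C⌉₊ : ℕ) : ℝ) * Real.log H :=
      le_mul_of_one_le_right (Nat.cast_nonneg _) hlH1
    have h1 := Nat.le_ceil C
    have h2 : (0 : ℝ) ≤ K₀ := Nat.cast_nonneg _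
    push_cast at h3 hlog
    linarith
  have hXK : (K₀ : ℝ) * Real.log H ≤ LL Y X := by
    refine le_trans (mul_le_mul_of_nonneg_right ?_ (by linarith)) hlog
    push_cast
    have h2 : (0 : ℝ) ≤ ⌈C⌉₊ := Nat.cast_nonneg _
    linarith
  rw [hL] at hcon
  have h1 : AppW f R H Y X e' := appW_of_plain hbb hcon
  have h2 := hred f ⟨χ, t, ht.trans (le_abs_self T), hb, hm,
    fun p hpp => by rw [ut_eq t hpp.ne_zero]; exact hp p hpp⟩ R Y X H hY hYX (by omega) hC2 hC1 h1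
  obtain ⟨b', β', hb', hle⟩ := h2
  have hl : ∀ m, Lio1 m = ((lioR m : ℝ) : ℂ) := by
    intro m
    unfold lioR Lio1
    push_cast
    rfl
  simp only [hl] at hle
  exact absurd (hH₁ (wn Y X hY hYX hbig) H lioR (by omega) hXK lio_lioR b' β' hb')
    (not_lt.2 hle)

end Pool.Agent.H24.WT
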