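import Pool.Agent.H24.GH.Fur
import Pool.Agent.H24.WT.Cls

/-!
# The ergodic form on logarithmic windows (MP_c59857_nt)

Measures which are quasi-generic along windows `[Y k, Z k]`.
-/

set_option autoImplicit false

open MeasureTheory ProbabilityTheory Filter Topology Finset
open scoped ENNReal

namespace Pool.Agent.H24.WT

open Pool.Agent.H89.MT (I1 X pt lavg QuasiGeneric z1)
open Pool.Agent.H83.W (S S_cont pt_succ)
open Pool.Agent.H6.N4D (ee norm_ee ee_add)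
open Pool.Agent.H24.EG
open Pool.Agent.H24.GG (DX DX_le DX_cont DX_nonneg Par dd ex win_eq')
open Pool.Agent.H24.GH (Far far gi gi_meas gi_nonneg gi_le_one gi_int)

/-- `κ` is a weak limit of the logarithmic means of the orbit of `u` over the windows
`[Y k, Z k]`, `log (Z k / Y k) → ∞`, `log (Z k / Y k) ≥ (log Z k) ^ (24/25)` -/
def QGW (u : ℕ → I1) (κ : Measure X) : Prop :=
  IsProbabilityMeasure κ ∧ ∃ Y Z : ℕ → ℕ, (∀ k, 1 ≤ Y k ∧ Y k ≤ Z k ∧
    Real.log (Z k) ^ (24 / 25 : ℝ) ≤ Real.log ((Z k : ℝ) / Y k)) ∧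
    Tendsto (fun k => Real.log ((Z k : ℝ) / Y k)) atTop atTop ∧
    ∀ F : C(X, ℝ), Tendsto (fun k => (∑ n ∈ Icc (Y k) (Z k), F (pt u n) / n) /
      Real.log ((Z k : ℝ) / Y k)) atTop (𝓝 (∫ x, F x ∂κ))

/-- a measure which is quasi-generic along windows is invariant -/
theorem qgw_mp {u : ℕ → I1} {κ : Measure X} (h : QGW u κ) : MeasurePreserving S κ κ := by
  have := h.1
  obtain ⟨Y, Z, hYZ, hL, hF⟩ := h.2
  have hS : Measurable S := S_cont.measurable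
  refine ⟨hS, ?_⟩
  have : IsProbabilityMeasure (κ.map S) := Measure.isProbabilityMeasure_map hS.aemeasurable
  apply ext_of_forall_integral_eq_of_IsFiniteMeasure
  intro F
  rw [integral_map hS.aemeasurable F.continuous.aestronglyMeasurable]
  have h1 := hF ⟨fun x => F (S x), F.continuous.comp S_cont⟩
  have h2 := hF ⟨fun x => F x, F.continuous⟩
  have h3 : Tendsto (fun k => (∑ n ∈ Icc (Y k) (Z k), F (pt u (n + 1)) / n) /
      Real.log ((Z k : ℝ) / Y k) - (∑ n ∈ Icc (Y k) (Z k), F (pt u n) / n) /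
      Real.log ((Z k : ℝ) / Y k)) atTop (𝓝 0) := by
    have hb : ∀ n, |F (pt u n)| ≤ ‖F‖ := fun n => by
      have := F.norm_coe_le_norm (pt u n)
      rwa [Real.norm_eq_abs] at this
    have hlim : Tendsto (fun k => 3 * ‖F‖ * Pool.Agent.H93.EB.hs 1 /
        Real.log ((Z k : ℝ) / Y k)) atTop (𝓝 0) := hL.const_div_atTop _
    refine squeeze_zero_norm' ?_ hlim
    filter_upwards [hL.eventually_gt_atTop 0] with k hk
    obtain ⟨hY, hYX, hbig⟩ := hYZ k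
    have h4 := Pool.Agent.H28.NW.wlg_shift (wn (Y k) (Z k) hY hYX hbig) 1
      (fun n => F (pt u n)) hb
    unfold Pool.Agent.H28.NW.wlg at h4
    rw [← sub_div, Real.norm_eq_abs, abs_div, abs_of_pos hk]
    exact div_le_div_of_nonneg_right h4 hk.le
  have h4 := h3.add h2
  simp only [ContinuousMap.coe_mk, sub_add_cancel, zero_add, pt_succ] at h4 h1
  exact tendsto_nhds_unique h1 h4

/-- the finite form with the constant `c` for the sequence `f`, on windows -/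
def GHw (c : ℝ) (f : ℕ → ℂ) : Prop := ∀ R : ℕ, ∃ H₀ K : ℕ, ∀ H Y X : ℕ, H₀ ≤ H → 1 ≤ Y → Y ≤ X →
  K * Real.log H ≤ Real.log ((X : ℝ) / Y) →
  Real.log X ^ (24 / 25 : ℝ) ≤ Real.log ((X : ℝ) / Y) →
  ∀ (b : ℕ → ℕ → ℂ) (β : ℕ → ℕ → ℝ), (∀ n r, ‖b n r‖ ≤ 1) →
    c * Real.log ((X : ℝ) / Y) < ∑ n ∈ Icc Y X, 1 / (n : ℝ) * ((∑ h ∈ Icc 1 H,
      ‖f (n + h) - ∑ r ∈ range R,
        b n r * Complex.exp (2 * Real.pi * Complex.I * (β n r * h))‖ ^ 2) / H)

/-- from the points of the orbit to the windows -/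
theorem plain_of {u : ℕ → I1} (f : ℕ → ℂ) (hf : ∀ n, 0 < n → ((u n : ℝ) : ℂ) = f n)
    (R H Y Z : ℕ) (hY : 1 ≤ Y) (hYZ : Y ≤ Z) {e e' : ℝ} (he' : 0 < e')
    (hD : ∑ n ∈ Icc Y Z, DX R H (pt u n) / n ≤ e * LL Y Z) :
    ∃ (b : ℕ → ℕ → ℂ) (β : ℕ → ℕ → ℝ), (∀ n r, ‖b n r‖ ≤ 1) ∧
      ∑ n ∈ Icc Y Z, 1 / (n : ℝ) * ((∑ h ∈ Icc 1 H,
        ‖f (n + h) - ∑ r ∈ range R,
          b n r * Complex.exp (2 * Real.pi * Complex.I * (β n r * h))‖ ^ 2) / H) ≤
        e * LL Y Z + e' * (1 + LL Y Z) := by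
  have h1 : ∀ n : ℕ, ∃ b : Par, dd R H (pt u n) b < DX R H (pt u n) + e' := fun n =>
    exists_lt_of_ciInf_lt (lt_add_of_pos_right _ he')
  choose b hb using h1
  refine ⟨fun n r => ((b n).1 r).1, fun n r => ((b n).1 r).2, fun n r => (b n).2 r, ?_⟩
  have h2 : ∀ n : ℕ, (∑ h ∈ Icc 1 H, ‖f (n + h) - ∑ r ∈ range R,
      ((b n).1 r).1 * Complex.exp (2 * Real.pi * Complex.I * (((b n).1 r).2 * h))‖ ^ 2) / H =
      dd R H (pt u n) (b n) := by
    intro n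
    unfold dd
    congr 1
    have hI : Icc 1 H = Ioc 0 H := by
      ext m; rw [mem_Icc, mem_Ioc]; omega
    rw [hI]
    refine Finset.sum_congr rfl fun h hh => ?_
    rw [mem_Ioc] at hh
    have h3 : ((pt u n (h : ℤ) : ℝ) : ℂ) = f (n + h) := by
      rw [← hf (n + h) (by omega)]
      unfold pt
      rw [if_pos (by omega)]
      congr 3
    rw [h3]
    congr 3
    unfold ex
    refine Finset.sum_congr rfl fun r _ => ?_
    rw [Int.cast_natCast]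
    congr 1
    unfold ee
    congr 1
    push_cast
    ring
  have h3 : ∑ n ∈ Icc Y Z, (1 : ℝ) / n ≤ 1 + LL Y Z := by
    refine (sum_Icc_le Y Z hY hYZ).trans ?_
    have hY0 : (0 : ℝ) < Y := by exact_mod_cast hY
    have h5 : (1 : ℝ) / Y ≤ 1 := by
      rw [div_le_one hY0]
      exact_mod_cast hY
    unfold LL
    linarith
  calc ∑ n ∈ Icc Y Z, 1 / (n : ℝ) * ((∑ h ∈ Icc 1 H, ‖f (n + h) - ∑ r ∈ range R,
        ((b n).1 r).1 * Complex.exp (2 * Real.pi * Complex.I * (((b n).1 r).2 * h))‖ ^ 2) / H)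
      ≤ ∑ n ∈ Icc Y Z, (DX R H (pt u n) / n + e' * (1 / n)) := by
        refine sum_le_sum fun n _ => ?_
        rw [h2 n, one_div_mul_eq_div, mul_one_div, ← add_div]
        exact div_le_div_of_nonneg_right (hb n).le (Nat.cast_nonneg n)
    _ = ∑ n ∈ Icc Y Z, DX R H (pt u n) / n + e' * ∑ n ∈ Icc Y Z, (1 : ℝ) / n := by
        rw [sum_add_distrib, mul_sum]
    _ ≤ e * LL Y Z + e' * (1 + LL Y Z) :=
        add_le_add hD (mul_le_mul_of_nonneg_left h3 he'.le)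

/-- the mean over a Furstenberg system of the distance to the sums of `R` exponentials -/
theorem le_int_DXw {c : ℝ} (f : ℕ → ℂ) (hG : GHw c f) (u : ℕ → I1)
    (hu : ∀ n, 0 < n → ((u n : ℝ) : ℂ) = f n)
    (κ : Measure X) [IsProbabilityMeasure κ] (hκ : QGW u κ) (R : ℕ) :
    ∃ H : ℕ, 0 < H ∧ c ≤ ∫ x, DX R H x ∂κ := by
  obtain ⟨H₀, K, h⟩ := hG R
  refine ⟨H₀ + 1, Nat.succ_pos _, ?_⟩
  by_contra hc
  rw [not_le] at hc
  obtain ⟨Y, Z, hYZ, hL, hF⟩ := hκ.2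
  set H := H₀ + 1 with hH
  set a := ∫ x, DX R H x ∂κ with ha
  have h1 := hF ⟨DX R H, DX_cont R H⟩
  simp only [ContinuousMap.coe_mk] at h1
  have h2 : a < (a + c) / 2 := by linarith
  obtain ⟨k, ⟨⟨hk, hk0⟩, hk3⟩, hk4⟩ := (((h1.eventually_lt_const h2).and
    (hL.eventually_ge_atTop 1)).and (hL.eventually_ge_atTop (K * Real.log H))).and
    (hL.eventually_ge_atTop 1) |>.exists
  obtain ⟨hY, hYX, hbig⟩ := hYZ k
  have hLL := LL_eq hY hYX
  have h5 : ∑ n ∈ Icc (Y k) (Z k), DX R H (pt u n) / n ≤ (a + c) / 2 * LL (Y k) (Z k) := by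
    rw [div_lt_iff₀ (by linarith), hLL] at hk
    exact hk.le
  obtain ⟨b, β, hb, h6⟩ := plain_of f hu R H (Y k) (Z k) hY hYX (e' := (c - a) / 4)
    (by linarith) h5
  have h7 := h H (Y k) (Z k) (Nat.le_succ _) hY hYX hk3 hbig b β hb
  rw [hLL] at h7 hk0
  nlinarith

/-- **The finite form gives the ergodic form** on windows, for any sequence with values in
`[-1, 1]` -/
theorem furw_of {c : ℝ} (f : ℕ → ℂ) (hG : GHw c f) (u : ℕ → I1)
    (hu : ∀ n, 0 < n → ((u n : ℝ) : ℂ) = f n)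
    (κ : Measure X) [IsProbabilityMeasure κ] (hκ : QGW u κ) :
    ∃ G : X → ℝ, Measurable G ∧ (∀ x, 0 ≤ G x ∧ G x ≤ 1) ∧ c ≤ ∫ x, G x ∂κ ∧
      ∀ᵐ x ∂κ, Far (comp κ x) (G x) :=
  ⟨gi κ, gi_meas κ, fun x => ⟨gi_nonneg κ x, gi_le_one κ x⟩,
    gi_int κ fun m => le_int_DXw f hG u hu κ hκ m, far κ (qgw_mp hκ)⟩

end Pool.Agent.H24.WT
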