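import Pool.Agent.H24.WT.Fur
import Pool.Agent.H24.GG.Both

/-!
# Theorems (G) and (H) on logarithmic windows (MP_c59857_nt): the class, one statement
-/

set_option autoImplicit false

namespace Pool.Agent.H24.WT

open Finset Pool.Agent.H6.N4D Pool.Agent.H93.EB Pool.Agent.H83.TR

/-- `log (X / Y) ≥ (log X) ^ (24/25)` -/
def Big (Y X : ℕ) : Prop := Real.log X ^ (24 / 25 : ℝ) ≤ Real.log ((X : ℝ) / Y)

/-- the conclusion of theorem (G) on windows, uniformly for the functions of a class -/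
def UFW (P : (ℕ → ℂ) → Prop) : Prop := ∀ R : ℕ → ℕ, ∃ K : ℕ, 1 ≤ K ∧ ∀ Y X H : ℕ, K ≤ H →
  1 ≤ Y → Y ≤ X → K * Real.log H ≤ LL Y X → Big Y X →
  ∀ f, P f → ∃ j : ℕ, 1 ≤ j ∧ j ≤ K ∧ ¬ AppW f (R j) H Y X (1 / j)

lemma lio_cast (m : ℕ) : Lio1 m = ((lioR m : ℝ) : ℂ) := by
  unfold lioR Lio1
  push_cast
  rfl

/-- theorem (G) on windows for Liouville's function -/
theorem ufw_lio (hG : Pool.Agent.H3.GW.W_GFU) : UFW (fun f => f = Lio1) := by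
  intro R
  obtain ⟨K, hK, h⟩ := hG R
  refine ⟨K, hK, fun Y X H hH hY hYX hL hbig f hf => ?_⟩
  subst hf
  obtain ⟨j, hj1, hj2, hj⟩ := h (wn Y X hY hYX hbig) H lioR hH hL lio_lioR
  refine ⟨j, hj1, hj2, ?_⟩
  rintro ⟨b, β, hb, hle⟩
  simp only [lio_cast] at hle
  exact absurd (hj b β hb) (not_lt.2 hle)

/-- the transfer, uniformly -/
theorem UFW.of_red {P : (ℕ → ℂ) → Prop} {g : ℕ → ℂ} (h : RedW P g) (hg : UFW (fun f => f = g)) :
    UFW P := by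
  intro R
  have hc : ∀ j : ℕ, ∃ (J D N : ℕ), 1 ≤ J ∧ ∀ f, P f → ∀ R Y X H : ℕ, 1 ≤ Y → Y ≤ X → 1 ≤ H →
      (N : ℝ) ≤ LL Y X → (N : ℝ) * Real.log H ≤ LL Y X →
      AppW f R H Y X (1 / J) → 1 ≤ j → AppW g (D * R) H Y X (1 / j) := by
    intro j
    rcases Nat.eq_zero_or_pos j with h0 | h0
    · exact ⟨1, 1, 1, le_rfl, fun _ _ _ _ _ _ _ _ _ _ _ _ hj => by omega⟩
    · obtain ⟨e', he', D, C, hh⟩ := h (1 / (j : ℝ)) (by positivity)
      refine ⟨⌈1 / e'⌉₊ + 1, D, ⌈C⌉₊, by omega, fun f hf R Y X H hY hYX hH h1 h2 ha _ => ?_⟩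
      have hlH : 0 ≤ Real.log H := Real.log_nonneg (by exact_mod_cast hH)
      refine hh f hf R Y X H hY hYX hH ((Nat.le_ceil C).trans h1)
        ((mul_le_mul_of_nonneg_right (Nat.le_ceil C) hlH).trans h2) (appW_mono ha hY hYX ?_)
      rw [one_div, inv_le_comm₀ (by positivity) he']
      have := Nat.le_ceil (1 / e')
      rw [one_div] at this
      push_cast
      rw [one_div]
      linarith
  choose J D N hJ hh using hc
  obtain ⟨K₂, hK₂, hU⟩ := hg (fun j => D j * R (J j))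
  refine ⟨3 + K₂ + ∑ j ∈ range (K₂ + 1), (J j + N j), by omega,
    fun Y X H hH hY hYX hL hbig f hf => ?_⟩
  have hS : ∀ j ≤ K₂, J j + N j ≤ ∑ j ∈ range (K₂ + 1), (J j + N j) := fun j hj =>
    single_le_sum (f := fun j => J j + N j) (fun _ _ => Nat.zero_le _)
      (mem_range.2 (by omega))
  have hH3 : 3 ≤ H := by omega
  have hlH1 : 1 ≤ Real.log H := by
    rw [Real.le_log_iff_exp_le (by exact_mod_cast (by omega : 0 < H))]
    have h1 := Real.exp_one_lt_d9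
    have h2 : (3 : ℝ) ≤ H := by exact_mod_cast hH3
    linarith
  have hle : ∀ n : ℕ, n ≤ 3 + K₂ + ∑ j ∈ range (K₂ + 1), (J j + N j) →
      (n : ℝ) * Real.log H ≤ LL Y X := fun n hn =>
    (mul_le_mul_of_nonneg_right (by exact_mod_cast hn) (by linarith)).trans hL
  obtain ⟨j, hj1, hj2, hj3⟩ := hU Y X H (by omega) hY hYX (hle K₂ (by omega)) hbig g rfl
  by_contra hcon
  push Not at hcon
  apply hj3
  have hSj := hS j hj2
  have hN2 : (N j : ℝ) * Real.log H ≤ LL Y X := hle (N j) (by omega)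
  have hN1 : (N j : ℝ) ≤ LL Y X := by
    refine le_trans ?_ hN2
    exact le_mul_of_one_le_right (Nat.cast_nonneg _) hlH1
  exact hh j f hf (R (J j)) Y X H hY hYX (by omega) hN1 hN2 (hcon (J j) (hJ j) (by omega)) hj1

/-- the class in plain words -/
def PC (q : ℕ) (f : ℕ → ℂ) : Prop := (∀ n, ‖f n‖ ≤ 1) ∧ ∃ χ : DirichletCharacter ℂ q,
  ∀ n, Squarefree n → f n = χ n * ArithmeticFunction.moebius n

lemma pc_cl {q : ℕ} {f : ℕ → ℂ} (h : PC q f) : ClU q 0 (fun _ => 0) f := by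
  obtain ⟨hf, χ, hs⟩ := h
  refine ⟨χ, 0, by simp, hf, Pool.Agent.H24.GG.prod_chi χ f hs, fun p hp => ?_⟩
  rw [hs p hp.squarefree, ArithmeticFunction.moebius_apply_prime hp, ut_eq 0 hp.ne_zero]
  simp

/-- theorem (H) on windows for iterated logarithms, in terms of `AppW` -/
theorem g9TW (hH : Pool.Agent.H3.GW.W_G9T) (q : ℕ) [NeZero q] (T : ℕ) :
    ∃ (c : ℝ) (K : ℕ), 0 < c ∧ ∀ R : ℕ, ∃ H₀ : ℕ, ∀ H Y X : ℕ, H₀ ≤ H → 1 ≤ Y → Y ≤ X →
      Real.log^[T] (X : ℝ) ≤ H → K * Real.log H ≤ LL Y X → Big Y X →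
      ∀ f, PC q f → ¬ AppW f R H Y X c := by
  obtain ⟨c₀, K₀, hc₀, hK₀, hH⟩ := hH T
  obtain ⟨e', he', D, C, hred⟩ := redW_cl q 0 (fun _ => 0) NeZero.one_le le_rfl
    (by simp) c₀ hc₀
  refine ⟨e', K₀ + ⌈C⌉₊, he', fun R => ?_⟩
  obtain ⟨H₁, hH₁⟩ := hH (D * R)
  refine ⟨H₁ + 3, fun H Y X hH hY hYX hT hK hbig f hf happ => ?_⟩
  have hH3 : 3 ≤ H := by omega
  have hlH1 : 1 ≤ Real.log H := by
    rw [Real.le_log_iff_exp_le (by exact_mod_cast (by omega : 0 < H))]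
    have h1 := Real.exp_one_lt_d9
    have h2 : (3 : ℝ) ≤ H := by exact_mod_cast hH3
    linarith
  have hC1 : C * Real.log H ≤ LL Y X := by
    refine le_trans (mul_le_mul_of_nonneg_right ?_ (by linarith)) hK
    push_cast
    have h1 := Nat.le_ceil C
    have h2 : (0 : ℝ) ≤ K₀ := Nat.cast_nonneg _
    linarith
  have hC2 : C ≤ LL Y X := by
    have h3 : (((K₀ + ⌈C⌉₊ : ℕ) : ℝ)) ≤ ((K₀ + ⌈C⌉₊ : ℕ) : ℝ) * Real.log H :=
      le_mul_of_one_le_right (Nat.cast_nonneg _) hlH1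
    have h1 := Nat.le_ceil C
    have h2 : (0 : ℝ) ≤ K₀ := Nat.cast_nonneg _
    push_cast at h3 hK
    linarith
  have hXK : (K₀ : ℝ) * Real.log H ≤ LL Y X := by
    refine le_trans (mul_le_mul_of_nonneg_right ?_ (by linarith)) hK
    push_cast
    have h2 : (0 : ℝ) ≤ ⌈C⌉₊ := Nat.cast_nonneg _
    linarith
  have h2 := hred f (pc_cl hf) R Y X H hY hYX (by omega) hC2 hC1 happ
  obtain ⟨b', β', hb', hle⟩ := h2
  simp only [lio_cast] at hle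
  exact absurd (hH₁ (wn Y X hY hYX hbig) H lioR (by omega) hT hXK lio_lioR b' β' hb')
    (not_lt.2 hle)

/-- **Theorems (G) and (H) in one statement, on logarithmic windows.** -/
theorem bothW (hG : Pool.Agent.H3.GW.W_GFU) (hH : Pool.Agent.H3.GW.W_G9T) (q : ℕ) [NeZero q] :
    ∃ J : ℕ → ℕ, ∀ (R : ℕ → ℕ) (T : ℕ), ∃ K : ℕ, ∀ H Y X : ℕ, K ≤ H → 1 ≤ Y → Y ≤ X →
      K * Real.log H ≤ Real.log ((X : ℝ) / Y) →
      Real.log X ^ (24 / 25 : ℝ) ≤ Real.log ((X : ℝ) / Y) →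
      ∀ (χ : DirichletCharacter ℂ q) (f : ℕ → ℂ), (∀ n, ‖f n‖ ≤ 1) →
        (∀ n, Squarefree n → f n = χ n * ArithmeticFunction.moebius n) →
        ∃ j : ℕ, 1 ≤ j ∧ j ≤ K ∧ (Real.log^[T] X ≤ H → j ≤ J T) ∧
          ∀ (b : ℕ → ℕ → ℂ) (β : ℕ → ℕ → ℝ), (∀ n r, ‖b n r‖ ≤ 1) →
            1 / (j : ℝ) * Real.log ((X : ℝ) / Y) < ∑ n ∈ Icc Y X, 1 / (n : ℝ) *
              ((∑ h ∈ Icc 1 H, ‖f (n + h) - ∑ r ∈ range (R j),
                b n r * Complex.exp (2 * Real.pi * Complex.I * (β n r * h))‖ ^ 2) / H) := by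
  have hT := g9TW hH q
  choose c K₀ hc hT using hT
  refine ⟨fun T => ⌈1 / c T⌉₊, fun R T => ?_⟩
  obtain ⟨K₁, _, h1⟩ := UFW.of_red (redW_cl q 0 (fun _ => 0) NeZero.one_le le_rfl (by simp))
    (ufw_lio hG) R
  obtain ⟨H₀, h2⟩ := hT T (R ⌈1 / c T⌉₊)
  have hJ : 1 ≤ ⌈1 / c T⌉₊ := Nat.one_le_ceil_iff.2 (by have := hc T; positivity)
  refine ⟨K₁ + K₀ T + H₀ + ⌈1 / c T⌉₊, fun H Y X hH hY hYX hK hbig χ f hf hs => ?_⟩
  have hH1 : 1 ≤ H := by omega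
  have hlH : 0 ≤ Real.log H := Real.log_nonneg (by exact_mod_cast hH1)
  have hL := LL_eq hY hYX
  rw [hL] at hK
  have hle : ∀ n : ℕ, n ≤ K₁ + K₀ T + H₀ + ⌈1 / c T⌉₊ → (n : ℝ) * Real.log H ≤ LL Y X :=
    fun n hn => (mul_le_mul_of_nonneg_right (by exact_mod_cast hn) hlH).trans hK
  have hPC : PC q f := ⟨hf, χ, hs⟩
  by_cases hl : Real.log^[T] (X : ℝ) ≤ H
  · refine ⟨⌈1 / c T⌉₊, hJ, by omega, fun _ => le_rfl, fun b β hb => ?_⟩
    have h3 := h2 H Y X (by omega) hY hYX hl (hle _ (by omega)) hbig f hPC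
    by_contra hcon
    push Not at hcon
    apply h3
    rw [hL] at hcon
    refine appW_mono (appW_of_plain hb hcon) hY hYX ?_
    have h4 := Nat.le_ceil (1 / c T)
    have h5 : (0 : ℝ) < (⌈1 / c T⌉₊ : ℝ) := by exact_mod_cast hJ
    rw [div_le_iff₀ h5]
    rw [div_le_iff₀ (hc T)] at h4
    linarith
  · obtain ⟨j, hj1, hj2, h3⟩ := h1 Y X H (by omega) hY hYX (hle _ (by omega)) hbig f (pc_cl hPC)
    refine ⟨j, hj1, by omega, fun h => absurd h hl, fun b β hb => ?_⟩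
    by_contra hcon
    push Not at hcon
    rw [hL] at hcon
    exact h3 (appW_of_plain hb hcon)

end Pool.Agent.H24.WT
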