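import Pool.Agent.H83.TR.Mul

/-!
# The transfer on logarithmic windows (MP_c59857_nt): definitions, sums over windows

All logarithmic sums are taken over an interval `[Y, X]`, `1 ≤ Y ≤ X`.
-/

set_option autoImplicit false

namespace Pool.Agent.H24.WT

open Finset Pool.Agent.H6.N4D Pool.Agent.H93.EB Pool.Agent.H83.TR

/-- logarithmic sums over `[Y, X]` -/
noncomputable def wl (Y X : ℕ) (f : ℕ → ℝ) : ℝ := ∑ n ∈ Icc Y X, f n / n

/-- the logarithmic length -/
noncomputable def LL (Y X : ℕ) : ℝ := Real.log X - Real.log Y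

lemma wl_mono {Y X : ℕ} {f g : ℕ → ℝ} (h : ∀ n ∈ Icc Y X, f n ≤ g n) : wl Y X f ≤ wl Y X g := by
  unfold wl
  exact sum_le_sum fun n hn => div_le_div_of_nonneg_right (h n hn) (by positivity)

lemma wl_add (Y X : ℕ) (f g : ℕ → ℝ) : wl Y X (fun n => f n + g n) = wl Y X f + wl Y X g := by
  unfold wl
  rw [← sum_add_distrib]
  exact sum_congr rfl fun n _ => add_div _ _ _

lemma wl_mul (Y X : ℕ) (c : ℝ) (f : ℕ → ℝ) : wl Y X (fun n => c * f n) = c * wl Y X f := by
  unfold wl
  rw [mul_sum]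
  exact sum_congr rfl fun n _ => mul_div_assoc _ _ _

lemma wl_sum {ι : Type} (Y X : ℕ) (s : Finset ι) (f : ι → ℕ → ℝ) :
    wl Y X (fun n => ∑ i ∈ s, f i n) = ∑ i ∈ s, wl Y X (f i) := by
  unfold wl
  rw [sum_comm]
  exact sum_congr rfl fun n _ => by rw [sum_div]

lemma LL_nonneg {Y X : ℕ} (hY : 1 ≤ Y) (hX : Y ≤ X) : 0 ≤ LL Y X := by
  unfold LL
  have hY0 : (0 : ℝ) < Y := by exact_mod_cast hY
  have := Real.log_le_log hY0 (by exact_mod_cast hX : (Y : ℝ) ≤ X)
  linarith

lemma LL_le {Y X : ℕ} (hY : 1 ≤ Y) : LL Y X ≤ Real.log X := by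
  unfold LL
  have := Real.log_nonneg (by exact_mod_cast hY : (1 : ℝ) ≤ Y)
  linarith

/-- harmonic sums over windows, upper bound -/
lemma sum_Icc_le (a b : ℕ) (ha : 1 ≤ a) (hab : a ≤ b) :
    ∑ n ∈ Icc a b, (1 : ℝ) / n ≤ 1 / a + (Real.log b - Real.log a) := by
  induction b, hab using Nat.le_induction with
  | base => rw [Icc_self, sum_singleton]; linarith
  | succ b hb ih =>
    rw [sum_Icc_succ_top (by omega)]
    have hb0 : (0 : ℝ) < b := by exact_mod_cast (by omega : 0 < b)
    have hb1 : (0 : ℝ) < ((b + 1 : ℕ) : ℝ) := by positivity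
    have h1 : Real.log b - Real.log ((b + 1 : ℕ) : ℝ) ≤ -(1 / ((b + 1 : ℕ) : ℝ)) := by
      rw [← Real.log_div hb0.ne' hb1.ne']
      have h2 := Real.log_le_sub_one_of_pos (div_pos hb0 hb1)
      refine h2.trans (le_of_eq ?_)
      push_cast at hb1 ⊢
      field_simp
      ring
    linarith

/-- `f` is, in the logarithmic mean over the windows of length `H` from `Y` to `X`, within `e`
(mean square) of sums of `R` exponentials -/
def AppW (f : ℕ → ℂ) (R H Y X : ℕ) (e : ℝ) : Prop :=
  ∃ (b : ℕ → ℕ → ℂ) (β : ℕ → ℕ → ℝ), (∀ n r, ‖b n r‖ ≤ 1) ∧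
    wl Y X (fun n => (∑ m ∈ Ioc n (n + H),
      ‖f m - ∑ r ∈ range R, b n r * ee (β n r * m)‖ ^ 2) / H) ≤ e * LL Y X

lemma appW_iff (f : ℕ → ℂ) (R H Y X : ℕ) (e : ℝ) : AppW f R H Y X e ↔
    ∃ g : ℕ → ℕ → ℂ, (∀ n, W R (g n)) ∧
      wl Y X (fun n => (∑ m ∈ Ioc n (n + H), ‖f m - g n m‖ ^ 2) / H) ≤ e * LL Y X := by
  constructor
  · rintro ⟨b, β, hb, h⟩
    exact ⟨fun n m => ∑ r ∈ range R, b n r * ee (β n r * m),
      fun n => ⟨b n, β n, hb n, fun m => rfl⟩, h⟩
  · rintro ⟨g, hg, h⟩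
    choose b β hb hh using hg
    refine ⟨b, β, hb, ?_⟩
    have : (fun n => (∑ m ∈ Ioc n (n + H),
        ‖f m - ∑ r ∈ range R, b n r * ee (β n r * m)‖ ^ 2) / H) =
        (fun n => (∑ m ∈ Ioc n (n + H), ‖f m - g n m‖ ^ 2) / (H : ℝ)) := by
      funext n
      congr 1
      refine sum_congr rfl fun m _ => ?_
      rw [hh n m]
    rw [this]
    exact h

lemma appW_mono {f : ℕ → ℂ} {R H Y X : ℕ} {e e' : ℝ} (h : AppW f R H Y X e)
    (hY : 1 ≤ Y) (hX : Y ≤ X) (he : e ≤ e') : AppW f R H Y X e' := by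
  obtain ⟨b, β, hb, h⟩ := h
  exact ⟨b, β, hb, h.trans (mul_le_mul_of_nonneg_right he (LL_nonneg hY hX))⟩

/-- windows of length `H` -/
lemma wl_win (Y X H : ℕ) (hY : 1 ≤ Y) (hH : 1 ≤ H) (u : ℕ → ℝ) (U : ℝ) (h0 : ∀ n, 0 ≤ u n)
    (hU : ∀ n, u n ≤ U) :
    wl Y X (fun n => (∑ m ∈ Ioc n (n + H), u m) / H) ≤
      2 * ∑ m ∈ Icc Y (X + H), u m / m + U * (1 + Real.log H) := by
  have hU0 : 0 ≤ U := (h0 0).trans (hU 0)
  have hHr : (0 : ℝ) < H := by exact_mod_cast hH
  have h1 : ∀ n : ℕ, ∑ m ∈ Ioc n (n + H), u m = ∑ h ∈ Icc 1 H, u (n + h) := by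
    intro n
    have h : Ioc n (n + H) = (Icc 1 H).image (fun h => n + h) := by
      ext m
      rw [mem_Ioc, mem_image]
      constructor
      · intro hm
        exact ⟨m - n, by rw [mem_Icc]; omega, by omega⟩
      · rintro ⟨h, hh, rfl⟩
        rw [mem_Icc] at hh
        omega
    rw [h, sum_image]
    intro a _ b _ hab
    simpa using hab
  have h2 : wl Y X (fun n => (∑ m ∈ Ioc n (n + H), u m) / H) =
      (1 / (H : ℝ)) * ∑ h ∈ Icc 1 H, ∑ n ∈ Icc Y X, u (n + h) / n := by
    unfold wl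
    rw [sum_comm, mul_sum]
    refine sum_congr rfl fun n _ => ?_
    dsimp only
    rw [h1 n, ← sum_div]
    ring
  rw [h2]
  have h3 : ∀ h ∈ Icc 1 H, ∑ n ∈ Icc Y X, u (n + h) / n ≤
      2 * ∑ m ∈ Icc Y (X + H), u m / m + U * (1 + Real.log H) := by
    intro h hh
    rw [mem_Icc] at hh
    have h4 : ∀ n ∈ Icc Y X, u (n + h) / (n : ℝ) ≤
        2 * (u (n + h) / ((n + h : ℕ) : ℝ)) + U * (if n ≤ H then 1 / (n : ℝ) else 0) := by
      intro n hn
      rw [mem_Icc] at hn
      have hn0 : (0 : ℝ) < n := by exact_mod_cast (by omega : 0 < n)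
      have hh0 : (0 : ℝ) < h := by exact_mod_cast hh.1
      by_cases hnH : n ≤ H
      · rw [if_pos hnH]
        have h5 : u (n + h) / (n : ℝ) ≤ U * (1 / (n : ℝ)) := by
          rw [mul_one_div]
          exact div_le_div_of_nonneg_right (hU _) hn0.le
        have h6 : 0 ≤ 2 * (u (n + h) / ((n + h : ℕ) : ℝ)) := by
          have := h0 (n + h)
          positivity
        linarith
      · rw [if_neg hnH, mul_zero, add_zero]
        have h5 : (h : ℝ) ≤ n := by exact_mod_cast (by omega : h ≤ n)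
        push_cast
        rw [← mul_div_assoc, div_le_div_iff₀ hn0 (by positivity)]
        nlinarith [h0 (n + h)]
    refine (sum_le_sum h4).trans ?_
    rw [sum_add_distrib, ← mul_sum, ← mul_sum]
    apply add_le_add
    · apply mul_le_mul_of_nonneg_left _ (by norm_num)
      have h5 : ∑ n ∈ Icc Y X, u (n + h) / ((n + h : ℕ) : ℝ) =
          ∑ m ∈ (Icc Y X).image (fun n => n + h), u m / (m : ℝ) := by
        rw [sum_image]
        intro a _ b _ hab
        simpa using hab
      rw [h5]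
      apply sum_le_sum_of_subset_of_nonneg
      · intro m hm
        rw [mem_image] at hm
        obtain ⟨n, hn, rfl⟩ := hm
        rw [mem_Icc] at hn ⊢
        omega
      · intro m _ _
        have := h0 m
        positivity
    · apply mul_le_mul_of_nonneg_left _ hU0
      rw [← sum_filter]
      refine le_trans ?_ (hs_le H)
      unfold hs
      apply sum_le_sum_of_subset_of_nonneg
      · intro n hn
        rw [mem_filter, mem_Icc] at hn
        rw [mem_Icc]
        omega
      · intro n _ _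
        positivity
  have h4 := sum_le_sum h3
  rw [sum_const, Nat.card_Icc, Nat.add_sub_cancel, nsmul_eq_mul] at h4
  calc (1 / (H : ℝ)) * ∑ h ∈ Icc 1 H, ∑ n ∈ Icc Y X, u (n + h) / n
      ≤ (1 / (H : ℝ)) * (H * (2 * ∑ m ∈ Icc Y (X + H), u m / m + U * (1 + Real.log H))) :=
        mul_le_mul_of_nonneg_left h4 (by positivity)
    _ = 2 * ∑ m ∈ Icc Y (X + H), u m / m + U * (1 + Real.log H) := by
        field_simp

/-- dilations -/
lemma wl_dil (Y X D : ℕ) (hY : 1 ≤ Y) (hD : 1 ≤ D) (E : ℕ → ℝ) (h0 : ∀ n, 0 ≤ E n)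
    (hE : ∀ n < Y, E n ≤ 1) :
    wl Y X (fun n => E (n / D)) ≤ wl Y X E + (1 + Real.log D) := by
  have hDr : (0 : ℝ) < D := by exact_mod_cast hD
  have hD1 : (1 : ℝ) ≤ D := by exact_mod_cast hD
  have h0' : wl Y X (fun n => E (n / D)) =
      ∑ n ∈ (Icc Y X).filter (fun n => Y ≤ n / D), E (n / D) / n +
      ∑ n ∈ (Icc Y X).filter (fun n => ¬ Y ≤ n / D), E (n / D) / n := by
    unfold wl
    rw [sum_filter_add_sum_filter_not]
  rw [h0']
  apply add_le_add
  · have h1 : ∑ n ∈ (Icc Y X).filter (fun n => Y ≤ n / D), E (n / D) / (n : ℝ) =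
        ∑ q ∈ Icc Y X, ∑ n ∈ ((Icc Y X).filter (fun n => Y ≤ n / D)).filter (fun n => n / D = q),
          E (n / D) / (n : ℝ) := by
      rw [sum_fiberwise_of_maps_to]
      intro n hn
      rw [mem_filter, mem_Icc] at hn
      rw [mem_Icc]
      have := Nat.div_le_self n D
      omega
    rw [h1]
    unfold wl
    refine sum_le_sum fun q hq => ?_
    rw [mem_Icc] at hq
    have hq0 : (0 : ℝ) < q := by exact_mod_cast (by omega : 0 < q)
    have h3 : ∀ n ∈ ((Icc Y X).filter (fun n => Y ≤ n / D)).filter (fun n => n / D = q),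
        E (n / D) / (n : ℝ) ≤ E q / ((q : ℝ) * D) := by
      intro n hn
      rw [mem_filter, mem_filter, mem_Icc] at hn
      rw [hn.2]
      apply div_le_div_of_nonneg_left (h0 _) (by positivity)
      have h4 : n / D * D ≤ n := Nat.div_mul_le_self n D
      rw [hn.2] at h4
      exact_mod_cast h4
    refine (sum_le_sum h3).trans ?_
    rw [sum_const, nsmul_eq_mul]
    have h5 : (((Icc Y X).filter (fun n => Y ≤ n / D)).filter (fun n => n / D = q)).card ≤ D := by
      have h6 : ((Icc Y X).filter (fun n => Y ≤ n / D)).filter (fun n => n / D = q) ⊆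
          Ico (q * D) (q * D + D) := by
        intro n hn
        rw [mem_filter] at hn
        rw [mem_Ico]
        have h7 := Nat.div_mul_le_self n D
        have h8 := Nat.lt_div_mul_add (a := n) (b := D) (by omega)
        rw [hn.2] at h7 h8
        exact ⟨h7, h8⟩
      refine (card_le_card h6).trans ?_
      simp
    have h5r : ((((Icc Y X).filter (fun n => Y ≤ n / D)).filter
        (fun n => n / D = q)).card : ℝ) ≤ D := by
      exact_mod_cast h5
    calc ((((Icc Y X).filter (fun n => Y ≤ n / D)).filter (fun n => n / D = q)).card : ℝ) *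
          (E q / ((q : ℝ) * D))
        ≤ (D : ℝ) * (E q / ((q : ℝ) * D)) := by
          apply mul_le_mul_of_nonneg_right h5r
          have := h0 q
          positivity
      _ = E q / (q : ℝ) := by
          field_simp
  · have h2 : ∀ n ∈ (Icc Y X).filter (fun n => ¬ Y ≤ n / D), E (n / D) / (n : ℝ) ≤ 1 / n := by
      intro n hn
      rw [mem_filter] at hn
      exact div_le_div_of_nonneg_right (hE _ (not_le.1 hn.2)) (by positivity)
    refine (sum_le_sum h2).trans ?_
    have h3 : ∑ n ∈ (Icc Y X).filter (fun n => ¬ Y ≤ n / D), (1 : ℝ) / n ≤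
        ∑ n ∈ Icc Y (D * Y), (1 : ℝ) / n := by
      apply sum_le_sum_of_subset_of_nonneg
      · intro n hn
        rw [mem_filter, mem_Icc, not_le] at hn
        rw [mem_Icc]
        refine ⟨hn.1.1, ?_⟩
        have h4 := (Nat.div_lt_iff_lt_mul (by omega : 0 < D)).1 hn.2
        rw [mul_comm] at h4
        exact h4.le
      · intro n _ _
        positivity
    refine h3.trans ?_
    have hYD : Y ≤ D * Y := Nat.le_mul_of_pos_left Y (by omega)
    refine (sum_Icc_le Y (D * Y) hY hYD).trans ?_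
    have hY0 : (0 : ℝ) < Y := by exact_mod_cast hY
    have h5 : (1 : ℝ) / Y ≤ 1 := by
      rw [div_le_one hY0]
      exact_mod_cast hY
    have h6 : Real.log ((D * Y : ℕ) : ℝ) = Real.log D + Real.log Y := by
      push_cast
      exact Real.log_mul hDr.ne' hY0.ne'
    rw [h6]
    linarith

/-- the sum over the multiples of `q` -/
lemma sum_dvdW (Y X q : ℕ) (hq : 1 ≤ q) (hY : 1 ≤ Y) (hX : Y ≤ X) :
    ∑ n ∈ Icc Y X, (if q ∣ n then (1 : ℝ) / n else 0) ≤ 1 / q * (1 + LL Y X) := by
  have hL := LL_nonneg hY hX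
  have hq0 : (0 : ℝ) < q := by exact_mod_cast hq
  have hY0 : (0 : ℝ) < Y := by exact_mod_cast hY
  rw [← sum_filter]
  set a := (Y + q - 1) / q with ha
  set b := X / q with hb
  have ha1 : 1 ≤ a := (Nat.one_le_div_iff (by omega)).2 (by omega)
  have haq : Y ≤ a * q := by
    have h1 := Nat.lt_div_mul_add (a := Y + q - 1) (b := q) (by omega)
    rw [← ha] at h1
    omega
  have h2 : ∑ n ∈ (Icc Y X).filter (fun n => q ∣ n), (1 : ℝ) / n ≤
      ∑ m ∈ Icc a b, (1 : ℝ) / q * (1 / m) := by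
    have h2 : ∑ n ∈ (Icc Y X).filter (fun n => q ∣ n), (1 : ℝ) / n =
        ∑ m ∈ ((Icc Y X).filter (fun n => q ∣ n)).image (fun n => n / q), (1 : ℝ) / q * (1 / m) := by
      rw [sum_image]
      · refine sum_congr rfl fun n hn => ?_
        rw [mem_filter, mem_Icc] at hn
        obtain ⟨m, rfl⟩ := hn.2
        rw [Nat.mul_div_cancel_left m (by omega)]
        push_cast
        rw [one_div_mul_one_div]
      · intro a ha b hb hab
        rw [mem_coe, mem_filter] at ha hb
        dsimp only at hab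
        rw [← Nat.div_mul_cancel ha.2, ← Nat.div_mul_cancel hb.2, hab]
    rw [h2]
    apply sum_le_sum_of_subset_of_nonneg
    · intro m hm
      rw [mem_image] at hm
      obtain ⟨n, hn, rfl⟩ := hm
      rw [mem_filter, mem_Icc] at hn
      obtain ⟨m, rfl⟩ := hn.2
      rw [Nat.mul_div_cancel_left m (by omega), mem_Icc]
      constructor
      · rw [ha]
        have h3 : Y + q - 1 < (m + 1) * q := by
          have : (m + 1) * q = q * m + q := by ring
          omega
        exact Nat.lt_succ_iff.1 ((Nat.div_lt_iff_lt_mul (by omega)).2 h3)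
      · rw [hb, Nat.le_div_iff_mul_le (by omega), mul_comm]
        exact hn.1.2
    · intro m _ _
      positivity
  refine h2.trans ?_
  rw [← mul_sum]
  apply mul_le_mul_of_nonneg_left _ (by positivity)
  by_cases hab : a ≤ b
  · refine (sum_Icc_le a b ha1 hab).trans ?_
    have ha0 : (0 : ℝ) < a := by exact_mod_cast ha1
    have hb0 : (0 : ℝ) < b := by exact_mod_cast (by omega : 0 < b)
    have h5 : (1 : ℝ) / a ≤ 1 := by
      rw [div_le_one ha0]
      exact_mod_cast ha1
    have h6 : Real.log b + Real.log q ≤ Real.log X := by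
      rw [← Real.log_mul hb0.ne' hq0.ne']
      apply Real.log_le_log (by positivity)
      exact_mod_cast Nat.div_mul_le_self X q
    have h7 : Real.log Y ≤ Real.log a + Real.log q := by
      rw [← Real.log_mul ha0.ne' hq0.ne']
      apply Real.log_le_log hY0
      exact_mod_cast haq
    unfold LL
    linarith
  · rw [Icc_eq_empty hab, sum_empty]
    linarith

end Pool.Agent.H24.WT
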